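import Pool.Agent.H.MP_913206_gt.C

/-!
Every analytic Menger-bounded topological group is Hurewicz-bounded.
-/

namespace Pool.Agent.Results.MP_913206_gt.Analytic

open Pool.Agent.H.MP_913206_gt

universe u

/-- nontrivial open covers -/
def OpenCov (X : Type u) [TopologicalSpace X] : Set (Set (Set X)) :=
  {𝒞 | (∀ V ∈ 𝒞, IsOpen V) ∧ (∀ x, ∃ V ∈ 𝒞, x ∈ V) ∧ Set.univ ∉ 𝒞}

/-- open gamma-covers -/
def GammaCov (X : Type u) [TopologicalSpace X] : Set (Set (Set X)) :=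
  {𝒞 | 𝒞 ∈ OpenCov X ∧ 𝒞.Infinite ∧ ∀ x, {V | V ∈ 𝒞 ∧ x ∉ V}.Finite}

/-- selection of single members -/
def S1 {X : Type u} (𝒜 ℬ : Set (Set (Set X))) : Prop :=
  ∀ 𝒞 : ℕ → Set (Set X), (∀ n, 𝒞 n ∈ 𝒜) →
    ∃ V : ℕ → Set X, (∀ n, V n ∈ 𝒞 n) ∧ Set.range V ∈ ℬ

/-- selection of finite subfamilies -/
def Sfin {X : Type u} (𝒜 ℬ : Set (Set (Set X))) : Prop :=
  ∀ 𝒞 : ℕ → Set (Set X), (∀ n, 𝒞 n ∈ 𝒜) →
    ∃ ℱ : ℕ → Set (Set X), (∀ n, (ℱ n).Finite ∧ ℱ n ⊆ 𝒞 n) ∧ (⋃ n, ℱ n) ∈ ℬ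

/-- the product of two subsets of a group -/
def setMul {G : Type u} [Group G] (F U : Set G) : Set G := {x | ∃ f ∈ F, ∃ u ∈ U, x = f * u}

/-- covers by the left translates of an open neighbourhood of the identity -/
def Onbd (G : Type u) [Group G] [TopologicalSpace G] : Set (Set (Set G)) :=
  {𝒞 | ∃ U : Set G, IsOpen U ∧ 1 ∈ U ∧ U ≠ Set.univ ∧ 𝒞 = {V | ∃ g : G, V = setMul {g} U}}

/-- covers by the finite unions of left translates of an open neighbourhood of the identity -/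
def OmegaNbd (G : Type u) [Group G] [TopologicalSpace G] : Set (Set (Set G)) :=
  {𝒞 | ∃ U : Set G, IsOpen U ∧ 1 ∈ U ∧ (∀ F : Set G, F.Finite → setMul F U ≠ Set.univ) ∧
    𝒞 = {V | ∃ F : Set G, F.Finite ∧ V = setMul F U}}

theorem mem_setMul {G : Type u} [Group G] {F U : Set G} {x : G} :
    x ∈ setMul F U ↔ ∃ f ∈ F, f⁻¹ * x ∈ U := by
  constructor
  · rintro ⟨f, hf, u, hu, rfl⟩
    exact ⟨f, hf, by simpa using hu⟩
  · rintro ⟨f, hf, h⟩
    exact ⟨f, hf, _, h, by simp⟩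

theorem result (G : Type u) [Group G] [TopologicalSpace G] [IsTopologicalGroup G]
    [TopologicalSpace.MetrizableSpace G] (φ : (ℕ → ℕ) → G) (hφ : Continuous φ)
    (hs : Function.Surjective φ) (hM : Sfin (Onbd G) (OpenCov G)) :
    S1 (OmegaNbd G) (GammaCov G) := by
  classical
  obtain ⟨B⟩ := exists_base (G := G)
  have hsb : SB B Set.univ := by
    refine sb_of_menger φ hφ hs fun V hV => ?_
    obtain ⟨ℱ, h1, -, h2, -⟩ := hM (fun n => {W | ∃ g : G, W = setMul {g} (V n)})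
      fun n => ⟨V n, (hV n).1, (hV n).2.1, (hV n).2.2, rfl⟩
    have h3 : ∀ n, ∀ W : ℱ n, ∃ g : G, W.1 = setMul {g} (V n) := fun n W => (h1 n).2 W.2
    choose c hc using h3
    have h4 : ∀ n, (Set.range (c n)).Finite := fun n =>
      haveI := (h1 n).1.to_subtype
      Set.finite_range _
    refine ⟨fun n => (h4 n).toFinset, fun g => ?_⟩
    obtain ⟨W, hW, hg⟩ := h2 g
    obtain ⟨n, hn⟩ := Set.mem_iUnion.1 hW
    have e := hc n ⟨W, hn⟩
    simp only at e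
    rw [e, mem_setMul] at hg
    obtain ⟨f, hf, hm⟩ := hg
    rw [Set.mem_singleton_iff] at hf
    exact ⟨n, f, by rw [hf]; simp, hm⟩
  intro 𝒞 h𝒞
  choose U hU1 hU2 hU3 hU4 using h𝒞
  obtain ⟨F, hF⟩ := hsb.hurewicz U fun n => (hU1 n).mem_nhds (hU2 n)
  have hF' : ∀ g, ∃ k, ∀ n, k ≤ n → g ∈ setMul (F n : Set G) (U n) := fun g => by
    obtain ⟨k, hk⟩ := hF g
    exact ⟨k, fun n hn => mem_setMul.2 (hk n hn)⟩
  refine ⟨fun n => setMul (F n : Set G) (U n), fun n => ?_, ⟨?_, ?_, ?_⟩, ?_, ?_⟩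
  · rw [hU4 n]
    exact ⟨F n, (F n).finite_toSet, rfl⟩
  · rintro _ ⟨n, rfl⟩
    have e : setMul (F n : Set G) (U n) = ⋃ f ∈ (F n : Set G), (fun x => f⁻¹ * x) ⁻¹' U n := by
      ext x
      simp [mem_setMul]
    simp only [e]
    exact isOpen_biUnion fun f _ => (hU1 n).preimage (by fun_prop)
  · intro g
    obtain ⟨k, hk⟩ := hF' g
    exact ⟨_, ⟨k, rfl⟩, hk k le_rfl⟩
  · rintro ⟨n, hn⟩
    exact hU3 n _ (F n).finite_toSet hn
  · intro hfin
    haveI := hfin.to_subtype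
    obtain ⟨W, hW⟩ := Finite.exists_infinite_fiber
      (fun n : ℕ => (⟨_, ⟨n, rfl⟩⟩ : Set.range fun n => setMul (F n : Set G) (U n)))
    have hinf : Set.Infinite _ := Set.infinite_coe_iff.1 hW
    obtain ⟨n0, hn0⟩ := hinf.nonempty
    apply hU3 n0 _ (F n0).finite_toSet
    refine Set.eq_univ_of_forall fun g => ?_
    obtain ⟨k, hk⟩ := hF' g
    obtain ⟨n, hn, hkn⟩ := hinf.exists_gt k
    have e1 : setMul (F n0 : Set G) (U n0) = W.1 := congrArg Subtype.val hn0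
    have e2 : setMul (F n : Set G) (U n) = W.1 := congrArg Subtype.val hn
    rw [e1, ← e2]
    exact hk n hkn.le
  · intro g
    obtain ⟨k, hk⟩ := hF' g
    refine ((Set.finite_lt_nat k).image fun n => setMul (F n : Set G) (U n)).subset ?_
    rintro _ ⟨⟨n, rfl⟩, hn⟩
    exact ⟨n, not_le.1 fun h => hn (hk n h), rfl⟩

end Pool.Agent.Results.MP_913206_gt.Analytic
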